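import Pool.Agent.H968R4.FlowVer

set_option autoImplicit false

namespace Pool.Agent.Results.MP_27938c_co.FlowCondition

open Pool.Agent.H968R4

/-- `D`: finite digraph with super-source `s` and super-sink `t`, every vertex reachable from a
source and reaching a sink (e.g. `D` acyclic). A `k`-dijoin `F` is the disjoint union of `k` dijoins
if some `G ⊆ F` satisfies: every source other than `s` is left by at least `k` arcs of `G`, every
sink other than `t` is entered by at least `k` arcs of `G`, every vertex not reachable from `s` is
entered by at most as many arcs of `G` as leave it, and every vertex from which `t` is not reachable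
is left by at most as many arcs of `G` as enter it. -/
theorem result :
    ∀ (V A : Type) [Finite V] [Finite A] (tail head : A → V) (s t : V),
      SuperSource tail head s → SuperSink tail head t →
      (∀ v, ∃ u, IsSource head u ∧ Reach tail head u v) →
      (∀ v, ∃ w, IsSink tail w ∧ Reach tail head v w) →
      ∀ k : ℕ, 1 ≤ k → ∀ F : Set A, IsKDijoin tail head k F → ∀ G : Set A, G ⊆ F →
      (∀ u, IsSource head u → u ≠ s → k ≤ ({a | a ∈ G ∧ tail a = u} : Set A).ncard) →
      (∀ w, IsSink tail w → w ≠ t → k ≤ ({a | a ∈ G ∧ head a = w} : Set A).ncard) →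
      (∀ v, ¬ Reach tail head s v →
        ({a | a ∈ G ∧ head a = v} : Set A).ncard ≤ ({a | a ∈ G ∧ tail a = v} : Set A).ncard) →
      (∀ v, ¬ Reach tail head v t →
        ({a | a ∈ G ∧ tail a = v} : Set A).ncard ≤ ({a | a ∈ G ∧ head a = v} : Set A).ncard) →
      ∃ P : Fin k → Set A, (∀ i, IsKDijoin tail head 1 (P i)) ∧
        (∀ i j, i ≠ j → Disjoint (P i) (P j)) ∧ (⋃ i, P i) = F := by
  intro V A _ _ tail head s t _ _ hsrc hsnk k hk F hF G hGF g1 g2 g3 g4
  refine mainFlow tail head s t hsrc hsnk k hk F G hGF tail head
    (fun a _ => Relation.ReflTransGen.refl)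
    (fun a _ => Relation.ReflTransGen.single ⟨a, rfl, rfl⟩)
    (fun a _ => Relation.ReflTransGen.refl)
    (fun U hU _ _ => hF U hU) ?_ ?_ g3 g4
  · intro u hu hus
    have e : ({a | a ∈ G ∧ head a = u} : Set A) = ∅ := by
      ext a
      simp only [Set.mem_empty_iff_false, iff_false]
      exact fun h => hu a h.2
    rw [e, Set.ncard_empty, add_zero]
    exact g1 u hu hus
  · intro w hw hwt
    have e : ({a | a ∈ G ∧ tail a = w} : Set A) = ∅ := by
      ext a
      simp only [Set.mem_empty_iff_false, iff_false]
      exact fun h => hw a h.2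
    rw [e, Set.ncard_empty, add_zero]
    exact g2 w hw hwt

end Pool.Agent.Results.MP_27938c_co.FlowCondition
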